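import Pool.Agent.H935R2.PS.Defs
import Pool.Agent.H470D4.Star

set_option autoImplicit false

/-!
# Task L: the final estimate, from suitable primes, the probabilistic core and the net
-/

namespace Pool.Agent.H935R2.PS

open Finset

namespace L

/-- The statement of `core`. -/
def CoreS : Prop := ∃ C : ℝ, 0 < C ∧ ∃ q₀ : ℕ, ∀ q : ℕ, q₀ ≤ q → ∀ hq : Fact q.Prime, Suit q →
    ∀ n : ℕ, 1 ≤ n → ∃ a : ℕ → ℕ → ZMod q, (∀ r j, a r j ≠ 0) ∧
      ∀ (D0 z : ℕ → ZMod q) (t1 t2 t3 : ℕ → ℕ), (∀ i, t1 i < q) → (∀ i, t2 i < q) → (∀ i, t3 i < q) →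
      |Tot n a D0 z t1 t2 t3| ≤ C * ((n:ℝ) ^ 2 * (La q * √(La q)) + (n:ℝ) * √n * (La q : ℝ) ^ 96)

/-- The statement of `net`. -/
def NetS : Prop := ∀ {q : ℕ} [Fact q.Prime] (n : ℕ) (_ : 1 ≤ n) (a : ℕ → ℕ → ZMod q)
    (_ : ∀ r j, a r j ≠ 0)
    (E : ℝ) (_ : ∀ (D0 z : ℕ → ZMod q) (t1 t2 t3 : ℕ → ℕ), (∀ i, t1 i < q) → (∀ i, t2 i < q) →
      (∀ i, t3 i < q) → |Tot n a D0 z t1 t2 t3| ≤ E),
    ∃ ξ : Fin (q ^ n) → Fin 3 → ℝ, (∀ i j, 0 ≤ ξ i j ∧ ξ i j < 1) ∧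
      ∀ x : Fin 3 → ℝ, (∀ j, 0 ≤ x j) → (∀ j, x j ≤ 1) →
      |(((univ : Finset (Fin (q ^ n))).filter (fun i => ∀ j, ξ i j < x j)).card : ℝ)
        - ((q ^ n : ℕ) : ℝ) * ∏ j, x j| ≤ E + 20 * (n:ℝ) ^ 2

/-- The statement of `suitable`. -/
def SuitS : Prop :=
  ∃ l₀ : ℕ, ∀ l : ℕ, l₀ ≤ l → ∃ q : ℕ, q.Prime ∧ Suit q ∧ l ≤ 2 * La q ∧ La q ≤ l

/-- The trivial bound. -/
theorem triv (N : ℕ) : ∃ ξ : Fin N → Fin 3 → ℝ,
    (∀ i j, 0 ≤ ξ i j ∧ ξ i j < 1) ∧ ∀ x : Fin 3 → ℝ, (∀ j, 0 ≤ x j) → (∀ j, x j ≤ 1) →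
      |(((univ : Finset (Fin N)).filter (fun i => ∀ j, ξ i j < x j)).card : ℝ) - N * ∏ j, x j| ≤
        N := by
  refine ⟨fun _ _ => 0, fun _ _ => ⟨le_rfl, one_pos⟩, fun x hx hx' => ?_⟩
  have h1 : ((univ : Finset (Fin N)).filter (fun i => ∀ j, (0:ℝ) < x j)).card ≤ N := by
    calc _ ≤ (univ : Finset (Fin N)).card := card_filter_le _ _
      _ = N := by simp
  have h2 : (0:ℝ) ≤ ∏ j, x j := prod_nonneg fun j _ => hx j
  have h3 : ∏ j, x j ≤ 1 := prod_le_one (fun j _ => hx j) fun j _ => hx' j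
  have h4 : (((univ : Finset (Fin N)).filter (fun i => ∀ j, (0:ℝ) < x j)).card : ℝ) ≤ N := by
    exact_mod_cast h1
  have h5 : (0:ℝ) ≤ (((univ : Finset (Fin N)).filter (fun i => ∀ j, (0:ℝ) < x j)).card : ℝ) := by
    positivity
  have h6 : (0:ℝ) ≤ N := by positivity
  rw [abs_le]
  constructor <;> nlinarith

/-- The numerical estimate. -/
theorem numer {C t La n : ℝ} (hC : 0 < C) (ht : 2 ≤ t) (hLa1 : t / 2 ≤ La) (hLa2 : La ≤ 2 * t)
    (hn0 : 0 ≤ n) (hn : n ≤ 2 * t ^ 400 / La) :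
    C * (n ^ 2 * (La * √La) + n * √n * La ^ 96) + 20 * n ^ 2 ≤
      (8 * C + C * 2 ^ 98 + 320) * (t ^ 800 / √t) := by
  have ht0 : 0 < t := by linarith
  have hLa0 : 0 < La := by linarith
  have hLa1' : 1 ≤ La := by linarith
  have hst : 0 < √t := Real.sqrt_pos.2 ht0
  have hsL : 0 < √La := Real.sqrt_pos.2 hLa0
  have hst2 : √t * √t = t := Real.mul_self_sqrt ht0.le
  have hsL2 : √La * √La = La := Real.mul_self_sqrt hLa0.le
  have hst1 : √t ≤ t := by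
    have : 1 ≤ √t := by rw [Real.one_le_sqrt]; linarith
    nlinarith
  -- first term
  have h1 : n ^ 2 * (La * √La) ≤ 8 * (t ^ 800 / √t) := by
    have h2 : n ^ 2 ≤ (2 * t ^ 400 / La) ^ 2 := pow_le_pow_left₀ hn0 hn 2
    have h3 : n ^ 2 * (La * √La) ≤ (2 * t ^ 400 / La) ^ 2 * (La * √La) :=
      mul_le_mul_of_nonneg_right h2 (by positivity)
    refine h3.trans ?_
    have h4 : (2 * t ^ 400 / La) ^ 2 * (La * √La) = 4 * (t ^ 800 / √La) := by
      rw [div_pow]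
      rw [show (2 * t ^ 400) ^ 2 = 4 * t ^ 800 by ring]
      rw [← sub_eq_zero]
      have : (4 * t ^ 800 / La ^ 2 * (La * √La)) - 4 * (t ^ 800 / √La) =
          4 * t ^ 800 / (La * √La) * (√La * √La - La) := by
        field_simp
      rw [this, hsL2, sub_self, mul_zero]
    rw [h4]
    have h5 : √t ≤ 2 * √La := by
      rw [show (2:ℝ) * √La = √(4 * La) by
        rw [Real.sqrt_mul (by norm_num), show (4:ℝ) = 2 ^ 2 by norm_num,
          Real.sqrt_sq (by norm_num)]]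
      exact Real.sqrt_le_sqrt (by linarith)
    have h6 : t ^ 800 / √La ≤ 2 * (t ^ 800 / √t) := by
      rw [← mul_div_assoc, div_le_div_iff₀ hsL hst]
      nlinarith [pow_pos ht0 800]
    linarith
  -- second term
  have h7 : t ^ 799 ≤ t ^ 800 / √t := by
    rw [le_div_iff₀ hst]
    calc t ^ 799 * √t ≤ t ^ 799 * t := mul_le_mul_of_nonneg_left hst1 (by positivity)
      _ = t ^ 800 := by ring
  have hn2 : n ≤ 2 * t ^ 400 := hn.trans (div_le_self (by positivity) hLa1')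
  have h8 : n * √n * La ^ 96 ≤ 2 ^ 98 * (t ^ 800 / √t) := by
    have h9 : √n ≤ 2 * t ^ 200 := by
      rw [show (2:ℝ) * t ^ 200 = √((2 * t ^ 200) ^ 2) by rw [Real.sqrt_sq (by positivity)]]
      refine Real.sqrt_le_sqrt ?_
      calc n ≤ 2 * t ^ 400 := hn2
        _ ≤ 4 * t ^ 400 := by nlinarith [pow_pos ht0 400]
        _ = (2 * t ^ 200) ^ 2 := by ring
    have h10 : La ^ 96 ≤ (2 * t) ^ 96 := pow_le_pow_left₀ hLa0.le hLa2 96
    have h11 : n * √n * La ^ 96 ≤ (2 * t ^ 400) * (2 * t ^ 200) * (2 * t) ^ 96 := by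
      refine mul_le_mul (mul_le_mul hn2 h9 (by positivity) (by positivity)) h10 (by positivity)
        (by positivity)
    have h12 : (2 * t ^ 400) * (2 * t ^ 200) * (2 * t) ^ 96 = 2 ^ 98 * t ^ 696 := by ring
    rw [h12] at h11
    have h13 : t ^ 696 ≤ t ^ 799 := pow_le_pow_right₀ (by linarith) (by norm_num)
    have h14 : (2:ℝ) ^ 98 * t ^ 696 ≤ 2 ^ 98 * (t ^ 800 / √t) :=
      mul_le_mul_of_nonneg_left (h13.trans h7) (by positivity)
    exact h11.trans h14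
  -- third term
  have h15 : n ^ 2 ≤ 16 * (t ^ 800 / √t) := by
    have h2 : n ^ 2 ≤ (2 * t ^ 400 / La) ^ 2 := pow_le_pow_left₀ hn0 hn 2
    refine h2.trans ?_
    rw [div_pow, show (2 * t ^ 400) ^ 2 = 4 * t ^ 800 by ring, div_le_iff₀ (by positivity)]
    have h16 : t / 2 ≤ La ^ 2 := by nlinarith
    have h17 : 16 * t ^ 799 * (t / 2) ≤ 16 * (t ^ 800 / √t) * La ^ 2 :=
      mul_le_mul (by linarith) h16 (by positivity) (by positivity)
    have h18 : 16 * t ^ 799 * (t / 2) = 8 * t ^ 800 := by ring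
    rw [h18] at h17
    have : 0 < t ^ 800 := by positivity
    linarith
  have h19 : C * (n ^ 2 * (La * √La)) ≤ C * (8 * (t ^ 800 / √t)) :=
    mul_le_mul_of_nonneg_left h1 hC.le
  have h20 : C * (n * √n * La ^ 96) ≤ C * (2 ^ 98 * (t ^ 800 / √t)) :=
    mul_le_mul_of_nonneg_left h8 hC.le
  have h21 : 20 * n ^ 2 ≤ 320 * (t ^ 800 / √t) := by linarith
  calc C * (n ^ 2 * (La * √La) + n * √n * La ^ 96) + 20 * n ^ 2
      = C * (n ^ 2 * (La * √La)) + C * (n * √n * La ^ 96) + 20 * n ^ 2 := by ring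
    _ ≤ C * (8 * (t ^ 800 / √t)) + C * (2 ^ 98 * (t ^ 800 / √t)) + 320 * (t ^ 800 / √t) := by
        linarith
    _ = (8 * C + C * 2 ^ 98 + 320) * (t ^ 800 / √t) := by ring

/-- Powers of the logarithm. -/
theorem pow_log {m : ℝ} (hm : 0 < m) :
    ∃ t : ℝ, 0 < t ∧ t ^ 400 = m ∧ m ^ ((2:ℝ) - 1 / 800) = t ^ 800 / √t := by
  refine ⟨m ^ ((1:ℝ) / 400), Real.rpow_pos_of_pos hm _, ?_, ?_⟩
  · rw [← Real.rpow_natCast, ← Real.rpow_mul hm.le]
    norm_num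
  · rw [Real.sqrt_eq_rpow, ← Real.rpow_mul hm.le, ← Real.rpow_natCast, ← Real.rpow_mul hm.le,
      ← Real.rpow_sub hm]
    norm_num

theorem star_power_of (suitable : SuitS) (core : CoreS) (net : NetS) :
    ∃ δ : ℝ, 0 < δ ∧ ∃ C : ℝ, 0 < C ∧ ∀ N : ℕ, 3 ≤ N → ∃ ξ : Fin N → Fin 3 → ℝ,
    (∀ i j, 0 ≤ ξ i j ∧ ξ i j < 1) ∧ ∀ x : Fin 3 → ℝ, (∀ j, 0 ≤ x j) → (∀ j, x j ≤ 1) →
      |(((univ : Finset (Fin N)).filter (fun i => ∀ j, ξ i j < x j)).card : ℝ) - N * ∏ j, x j| ≤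
        C * (Real.log N) ^ (2 - δ) := by
  obtain ⟨l₀, hl₀⟩ := suitable
  obtain ⟨C, hC, q₀, hcore⟩ := core
  obtain ⟨T, hT⟩ : ∃ T : ℝ, T = max (max (l₀ : ℝ) (2 * (q₀ : ℝ))) 4 := ⟨_, rfl⟩
  have hT1 : (l₀:ℝ) ≤ T := by rw [hT]; exact (le_max_left _ _).trans (le_max_left _ _)
  have hT2 : 2 * (q₀:ℝ) ≤ T := by rw [hT]; exact (le_max_right _ _).trans (le_max_left _ _)
  have hT4 : 4 ≤ T := by rw [hT]; exact le_max_right _ _
  refine ⟨1 / 800, by norm_num, 4 * (8 * C + C * 2 ^ 98 + 320) + Real.exp (T ^ 400),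
    by positivity, fun N hN => ?_⟩
  have hN3 : (3:ℝ) ≤ N := by exact_mod_cast hN
  have hNpos : (0:ℝ) < N := by linarith
  have hlog1 : 1 < Real.log N := by
    rw [Real.lt_log_iff_exp_lt hNpos]
    have := Real.exp_one_lt_d9
    linarith
  have hm0 : 0 < Real.log N := by linarith
  obtain ⟨t, ht0, htm, htp⟩ := pow_log hm0
  have hgoal : 1 ≤ Real.log N ^ ((2:ℝ) - 1 / 800) :=
    Real.one_le_rpow hlog1.le (by norm_num)
  rcases lt_or_ge t T with htT | htT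
  · -- small N
    obtain ⟨ξ, hξ, hb⟩ := triv N
    refine ⟨ξ, hξ, fun x hx hx' => (hb x hx hx').trans ?_⟩
    have h1 : (N:ℝ) ≤ Real.exp (T ^ 400) := by
      rw [← Real.log_le_iff_le_exp hNpos, ← htm]
      exact pow_le_pow_left₀ ht0.le htT.le 400
    calc (N:ℝ) ≤ Real.exp (T ^ 400) := h1
      _ ≤ (4 * (8 * C + C * 2 ^ 98 + 320) + Real.exp (T ^ 400)) := by
          have : 0 < 4 * (8 * C + C * 2 ^ 98 + 320) := by positivity
          linarith
      _ ≤ (4 * (8 * C + C * 2 ^ 98 + 320) + Real.exp (T ^ 400)) *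
            Real.log N ^ ((2:ℝ) - 1 / 800) :=
          le_mul_of_one_le_right (by positivity) hgoal
  · -- large N
    have ht4 : 4 ≤ t := hT4.trans htT
    obtain ⟨l, hl⟩ : ∃ l : ℕ, l = ⌈t⌉₊ := ⟨_, rfl⟩
    have hl1 : t ≤ l := by rw [hl]; exact Nat.le_ceil t
    have hl2 : (l:ℝ) < t + 1 := by rw [hl]; exact Nat.ceil_lt_add_one ht0.le
    have hll0 : l₀ ≤ l := by
      have : (l₀:ℝ) ≤ l := by linarith
      exact_mod_cast this
    obtain ⟨q, hqp, hqs, hq1, hq2⟩ := hl₀ l hll0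
    have hq1r : (l:ℝ) ≤ 2 * La q := by exact_mod_cast hq1
    have hq2r : (La q:ℝ) ≤ l := by exact_mod_cast hq2
    have hqne : q ≠ 0 := hqp.ne_zero
    have h2La : 2 ^ La q ≤ q := Nat.pow_log_le_self 2 hqne
    have hq0q : q₀ ≤ q := by
      have h1 : (q₀:ℝ) ≤ La q := by linarith
      have h2 : q₀ ≤ La q := by exact_mod_cast h1
      have h3 : La q < 2 ^ La q := Nat.lt_two_pow_self
      omega
    have hfact : Fact q.Prime := ⟨hqp⟩
    have hLa1 : t / 2 ≤ La q := by linarith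
    have hLa2 : (La q : ℝ) ≤ 2 * t := by linarith
    have hLa0 : (0:ℝ) < La q := by linarith
    have hlogq : 2 / 3 * (La q : ℝ) ≤ Real.log q := by
      have h1 : ((2:ℝ) ^ La q) ≤ q := by exact_mod_cast h2La
      have h2 : Real.log ((2:ℝ) ^ La q) ≤ Real.log q := Real.log_le_log (by positivity) h1
      rw [Real.log_pow] at h2
      have h3 := Real.log_two_gt_d9
      nlinarith
    have hlogq0 : 0 < Real.log q := by linarith
    obtain ⟨n, hn⟩ : ∃ n : ℕ, n = ⌈Real.log N / Real.log q⌉₊ := ⟨_, rfl⟩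
    have hn1 : Real.log N / Real.log q ≤ n := by rw [hn]; exact Nat.le_ceil _
    have hn2 : (n:ℝ) < Real.log N / Real.log q + 1 := by
      rw [hn]; exact Nat.ceil_lt_add_one (by positivity)
    have hnpos : 1 ≤ n := by
      have : 0 < Real.log N / Real.log q := by positivity
      have : (0:ℝ) < n := by linarith
      exact_mod_cast this
    have hNq : N ≤ q ^ n := by
      have h1 : Real.log N ≤ n * Real.log q := by
        rwa [div_le_iff₀ hlogq0] at hn1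
      rw [← Real.log_pow] at h1
      have h2 : (0:ℝ) < (q:ℝ) ^ n := by
        have : (0:ℝ) < q := by exact_mod_cast hqp.pos
        positivity
      have h3 : (N:ℝ) ≤ (q:ℝ) ^ n := (Real.log_le_log_iff hNpos h2).1 h1
      exact_mod_cast h3
    have hnle : (n:ℝ) ≤ 2 * t ^ 400 / La q := by
      rw [htm, le_div_iff₀ hLa0]
      have h1 : Real.log N / Real.log q ≤ Real.log N / (2 / 3 * (La q : ℝ)) :=
        div_le_div_of_nonneg_left hm0.le (by positivity) hlogq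
      have h2 : Real.log N / (2 / 3 * (La q : ℝ)) * La q = 3 / 2 * Real.log N := by
        field_simp
      have h3 : (La q : ℝ) ≤ 1 / 2 * Real.log N := by
        rw [← htm]
        have h4 : t ^ 2 ≤ t ^ 400 := pow_le_pow_right₀ (by linarith) (by norm_num)
        nlinarith
      have h5 : (n:ℝ) * La q ≤ (Real.log N / (2 / 3 * (La q : ℝ)) + 1) * La q :=
        mul_le_mul_of_nonneg_right (by linarith) hLa0.le
      rw [add_mul, h2, one_mul] at h5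
      linarith
    obtain ⟨a, ha, hTot⟩ := hcore q hq0q hfact hqs n hnpos
    obtain ⟨ξ, hξ01, hξ⟩ := net n hnpos a ha _ hTot
    have hnum := numer hC (by linarith : (2:ℝ) ≤ t) hLa1 hLa2 (Nat.cast_nonneg n) hnle
    obtain ⟨ζ, hζ01, hζ⟩ := Pool.Agent.H470D4.subnet (k := 2) hNq (by omega) (by positivity) ξ hξ01 hξ
    refine ⟨ζ, hζ01, fun x hx hx' => (hζ x hx hx').trans ?_⟩
    rw [htp]
    have h1 : 0 ≤ Real.exp (T ^ 400) * (t ^ 800 / √t) := by positivity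
    nlinarith [hnum, h1]

end L

end Pool.Agent.H935R2.PS
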